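import Pool.Agent.H.MP_ca213f_co.A

namespace Pool.Agent.Results.MP_ca213f_co.All

open Set Pool.Agent.Lib.helper5.Ray Pool.Agent.H.MP_ca213f_co

/-- An unbounded simple curve. -/
def Curve (c : Set E) : Prop :=
  ¬Bornology.IsBounded c ∧ (Nonempty (c ≃ₜ ℝ) ∨ Nonempty (c ≃ₜ Ici (0 : ℝ)))

/-- Some marking makes the regular square tiling an `n`-armed spiral. -/
def Spiral (n : ℕ) : Prop :=
  ∃ (M : Set (Set E)) (σ : ℤ × ℤ → E ≃ᵢ E), M.Finite ∧
    (∀ A ∈ M, A ⊆ Q 0 ∧ Nonempty (A ≃ₜ Icc (0 : ℝ) 1)) ∧ (∀ u, σ u '' Q 0 = Q u) ∧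
    ∃ c : Fin n → Set E, (∀ j, Curve (c j)) ∧ (∀ i j, i ≠ j → Disjoint (c i) (c j)) ∧
      ⋃ j, c j = ⋃ u, ⋃ A ∈ M, σ u '' A

theorem mark {n : ℕ} (hn : 0 < n) : ∃ (s : ℤ × ℤ → Bool × Bool) (m : ℤ × ℤ → ℤ × ℤ),
    (∀ u, Rl n u (s u) (m u)) ∧ m.Surjective := by
  refine (pick (Rl n) (fun u => ?_)
    (fun u => if 1 ≤ u.1 + u.2 then if u.2 < u.1 then u else (u.1 - 1, u.2)
      else if u.1 < 0 ∧ u.1 - u.2 < n - 1 then (u.1 - 1, u.2 - 1) else (u.1, u.2 - 1))
    (fun u => if 1 ≤ u.1 + u.2 then if u.2 < u.1 then (true, false) else (false, false)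
      else if u.1 < 0 ∧ u.1 - u.2 < n - 1 then (true, true) else (false, true))
    (fun u v h => ?_) fun u => ?_).imp fun s h => h.imp fun m h => ⟨h.1, fun w => ⟨_, (h.2 w).2⟩⟩
  · obtain ⟨x, y⟩ := u
    by_contra h
    push Not at h
    have a := h (false, false) (x, y)
    have b := h (true, false) (x, y + 1)
    have c := h (true, true) (x + 1, y)
    have d := h (false, true) (x + 1, y + 1)
    have e := h (false, true) (x, y + 1)
    have f := h (true, false) (x, y)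
    clear h
    simp only [Rl, nx, e0, e1] at a b c d e f
    split_ifs at a b c d e f <;> simp at * <;> omega
  · simp only [] at h
    split_ifs at h <;> simp only [Prod.ext_iff] at h <;> exact Prod.ext (by omega) (by omega)
  · simp only [Rl, nx, e0, e1]
    split_ifs <;> simp [Prod.ext_iff] at *

theorem result : {n : ℕ | 0 < n ∧ Spiral n} = {n | 0 < n} := by
  refine Subset.antisymm (fun n h => h.1) fun n (hn : 0 < n) => ⟨hn, ?_⟩
  obtain ⟨c, h1, h2, h3⟩ := spiral hn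
  obtain ⟨s, m, a, b⟩ := mark hn
  refine ⟨{segment ℝ (pt (0, 0)) (pt (1, 0))}, fun u => σ u (s u), finite_singleton _, ?_,
    fun u => σQ _ _, c, fun j => ?_, h2, ?_⟩
  · rintro _ rfl
    exact ⟨M_sub, arc ne01⟩
  · obtain ⟨γ, x, y, z⟩ := h1 j
    exact z ▸ ⟨(curve x y).1, Or.inr (curve x y).2⟩
  · simp only [biUnion_singleton]
    exact h3.trans (un a b)

end Pool.Agent.Results.MP_ca213f_co.All
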